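import Pool.Agent.Helper75.CR.St2

/-!
# Project CR (MP_265e56_al), module O1: the congruence of the identities of the subalgebra `Dw`
-/

set_option autoImplicit false

namespace Pool.Agent.Helper86.CR

open Pool.Agent.Helper75.CR Helper1.IM

theorem Dw_ne {w : Wd} (h : Dw w) : w ≠ [] := by
  intro hw
  have := h.2.1
  rw [hw] at this
  simp at this

theorem sb_eq_nil_iff {f : ℕ → Wd} (hf : ∀ i, f i ≠ []) (w : Wd) : sb f w = [] ↔ w = [] :=
  ⟨fun h => by
    by_contra hne
    exact sb_ne_nil f hf w hne h, fun h => by rw [h]; rfl⟩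

/-- The image of a nonempty word under a substitution into `Dw` is in `Dw`. -/
theorem Dw_sb {f : ℕ → Wd} (hf : ∀ i, Dw (f i)) {w : Wd} (hw : w ≠ []) : Dw (sb f w) := by
  have hc : ct (sb f w) = {0} := by
    rw [ct_sb]
    ext i
    simp only [Finset.mem_biUnion, Finset.mem_singleton]
    constructor
    · rintro ⟨j, _, hj⟩
      rw [(hf j).1] at hj
      simpa using hj
    · intro hi
      rcases w with _ | ⟨a, w⟩
      · exact absurd rfl hw
      · exact ⟨a.1, by simp, by rw [(hf a.1).1, hi]; simp⟩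
  refine ⟨hc, ?_⟩
  rcases w with _ | ⟨a, w⟩
  · exact absurd rfl hw
  · rw [sb_cons]
    rcases a with ⟨i, b⟩
    have h1 := (hf i).2.1
    have h2 := (hf i).2.2
    cases b
    · simp only [Bool.false_eq_true, if_false]
      exact ⟨List.mem_append_left _ h1, List.mem_append_left _ h2⟩
    · simp only [if_true]
      refine ⟨List.mem_append_left _ ?_, List.mem_append_left _ ?_⟩
      · simp only [st, List.mem_reverse, List.mem_map]
        exact ⟨Y 0, h2, by simp⟩
      · simp only [st, List.mem_reverse, List.mem_map]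
        exact ⟨X 0, h1, by simp⟩

/-- The congruence of the identities of `Dw`. -/
def bet (θ : FIC) : FIC where
  r u v := (u = [] ↔ v = []) ∧ ∀ f : ℕ → Wd, (∀ i, Dw (f i)) → θ.r (sb f u) (sb f v)
  refl' u := ⟨Iff.rfl, fun _ _ => θ.refl' _⟩
  symm' h := ⟨h.1.symm, fun f hf => θ.symm' (h.2 f hf)⟩
  trans' h h' := ⟨h.1.trans h'.1, fun f hf => θ.trans' (h.2 f hf) (h'.2 f hf)⟩
  ne' h hu := h.1.1 hu
  mul' := by
    intro u v a b h
    refine ⟨?_, fun f hf => ?_⟩
    · simp only [List.append_eq_nil_iff, h.1]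
    · simp only [sb_append]
      exact θ.mul' _ _ (h.2 f hf)
  star' := by
    intro u v h
    refine ⟨?_, fun f hf => ?_⟩
    · rw [st_eq_nil, st_eq_nil]
      exact h.1
    · rw [sb_st, sb_st]
      exact θ.star' (h.2 f hf)
  sub' := by
    intro u v g hg h
    refine ⟨?_, fun f hf => ?_⟩
    · rw [sb_eq_nil_iff hg, sb_eq_nil_iff hg]
      exact h.1
    · rw [sb_sb, sb_sb]
      exact h.2 _ (fun i => Dw_sb hf (hg i))

theorem sb_rep (y : Wd) (m : ℕ) : sb (fun _ => y) (List.replicate m (X 0)) = (List.replicate m y).flatten := by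
  induction m with
  | zero => rfl
  | succ m ih => rw [List.replicate_succ, sb_X, ih, List.replicate_succ, List.flatten_cons]

theorem sb_rep2 (f : ℕ → Wd) (m : ℕ) :
    sb f (List.replicate m [Y 0, X 0]).flatten = (List.replicate m (st (f 0) ++ f 0)).flatten := by
  induction m with
  | zero => rfl
  | succ m ih =>
    rw [List.replicate_succ, List.flatten_cons, sb_append, ih, List.replicate_succ, List.flatten_cons]
    congr 1
    simp

/-- For `s` in `Dw`: `s` is `θ`-equal to `s` times the `n`-th power of `s* s`. -/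
theorem key (hL2 : Helper75.CR.StL2) (hM1 : Helper75.CR.StM1) {θ : FIC} (hC : CRF θ) {n : ℕ} (hn : θ.r [X 0] (List.replicate (n + 1) (X 0)))
    {s : Wd} (hs : Dw s) : θ.r s (s ++ (List.replicate n (st s ++ s)).flatten) := by
  have hW := (hM1 θ hC).1
  have hsn : s ≠ [] := Dw_ne hs
  have hall : ∀ a ∈ st s, Jl (toP θ) s [a] := by
    intro a ha
    have ha0 : a.1 = 0 := by
      have h1 : a.1 ∈ ct (st s) := mem_ct.2 ⟨a.2, ha⟩
      rw [ct_st, hs.1] at h1
      simpa using h1
    have has : a ∈ s := by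
      rcases a with ⟨i, b⟩
      have hi : i = 0 := ha0
      subst hi
      cases b
      · exact hs.2.1
      · exact hs.2.2
    obtain ⟨x, y, hxy⟩ := List.append_of_mem has
    refine ⟨x, y, ?_⟩
    have : x ++ [a] ++ y = s := by rw [hxy]; simp
    rw [this]
    exact θ.refl' _
  obtain ⟨-, ⟨x, hx⟩, -⟩ := hL2 Bool SB (toP θ) hW s (st s) hsn hall
  have hx' : θ.r s (x ++ (st s ++ s)) := by
    have : x ++ (st s ++ s) = x ++ st s ++ s := by simp
    rw [this]
    exact hx
  have hyn : st s ++ s ≠ [] := by simp [hsn]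
  have h2 := θ.sub' (fun _ => st s ++ s) (fun _ => hyn) hn
  rw [sb_rep, List.replicate_succ, List.flatten_cons] at h2
  have h3 : θ.r (st s ++ s) ((st s ++ s) ++ (List.replicate n (st s ++ s)).flatten) := by
    simpa using h2
  have h4 := θ.mulL x h3
  have h5 := θ.mulR (List.replicate n (st s ++ s)).flatten hx'
  refine θ.trans' hx' (θ.trans' h4 ?_)
  have h6 : x ++ (st s ++ s ++ (List.replicate n (st s ++ s)).flatten) =
      x ++ (st s ++ s) ++ (List.replicate n (st s ++ s)).flatten := by simp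
  rw [h6]
  exact θ.symm' h5

theorem hO1 (hL2 : Helper75.CR.StL2) (hM1 : Helper75.CR.StM1) (hN6 : Helper75.CR.StN6) : Helper75.CR.StO1 := by
  intro θ hC hS
  obtain ⟨-, -, -, n, hn1, hn⟩ := hN6 θ hC hS
  refine ⟨bet θ, ?_, fun u v h => h.2, [X 0] ++ (List.replicate n [Y 0, X 0]).flatten, ?_, ?_⟩
  · intro u v h
    refine ⟨⟨fun hu => θ.ne' h hu, fun hv => θ.ne' (θ.symm' h) hv⟩, fun f hf => ?_⟩
    exact θ.sub' f (fun i => Dw_ne (hf i)) h
  · refine ⟨0, by simp [X], ?_⟩
    obtain ⟨m, rfl⟩ : ∃ m, n = m + 1 := ⟨n - 1, by omega⟩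
    rw [List.replicate_succ, List.flatten_cons]
    simp [X, Y]
  · refine ⟨by simp, fun f hf => ?_⟩
    rw [sb_append, sb_rep2]
    have h1 : sb f [X 0] = f 0 := by simp
    rw [h1]
    exact key hL2 hM1 hC hn (hf 0)

end Pool.Agent.Helper86.CR
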