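import Pool.Agent.Helper75.CR.St2

/-!
# Project CR (MP_265e56_al), module P3: the identities of `SL4`
-/

set_option autoImplicit false

namespace Pool.Agent.Helper86.CR

open Pool.Agent.Helper75.CR Helper1.IM

/-- The pair of truth values of an element of `SL4`. -/
def vl (x : SL4.carrier) : TT := C4.val x

theorem vl_inj {x y : SL4.carrier} (h : vl x = vl y) : x = y := C4.ext' h

theorem vl_mul (x y : SL4.carrier) : vl (x * y) = mul4 (vl x) (vl y) := rfl

theorem vl_star (x : SL4.carrier) : vl (Star.star x) = star4 (vl x) := rfl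

theorem vl_evr (e : ℕ → SL4.carrier) (u : Wd) : ∀ b : SL4.carrier,
    vl (evr SL4 e b u) = ((vl b).1 && u.all (fun a => (vl (evl SL4 e a)).1), (vl b).2 && u.all (fun a => (vl (evl SL4 e a)).2)) := by
  induction u with
  | nil =>
    intro b
    change vl b = _
    simp
  | cons a u ih =>
    intro b
    have h : evr SL4 e b (a :: u) = evr SL4 e (b * evl SL4 e a) u := rfl
    rw [h, ih, vl_mul]
    simp only [mul4, List.all_cons, Bool.and_assoc]

/-- The value of the word `a :: u`. -/
theorem vl_word (e : ℕ → SL4.carrier) (a : Lt) (u : Wd) :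
    vl (evr SL4 e (evl SL4 e a) u) =
      ((a :: u).all (fun c => (vl (evl SL4 e c)).1), (a :: u).all (fun c => (vl (evl SL4 e c)).2)) := by
  rw [vl_evr]
  simp only [List.all_cons]

/-- The value depends only on the set of letters. -/
theorem all_congr_SC {u v : Wd} (h : SC u v) (p : Lt → Bool) : u.all p = v.all p := by
  rw [Bool.eq_iff_iff, List.all_eq_true, List.all_eq_true]
  exact ⟨fun H a ha => H a ((h a).2 ha), fun H a ha => H a ((h a).1 ha)⟩

/-- The evaluation testing the letter with index `j`. -/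
def tst (j : ℕ) (i : ℕ) : SL4.carrier := if i = j then (⟨(false, true)⟩ : C4) else (⟨(true, true)⟩ : C4)

theorem vl_tst (j : ℕ) (a : Lt) : vl (evl SL4 (tst j) a) = (!(decide (a = (j, false))), !(decide (a = (j, true)))) := by
  rcases a with ⟨i, b⟩
  by_cases hi : i = j
  · subst hi
    cases b
    · simp [evl, tst, vl]
    · simp only [evl, if_true, vl_star]
      simp [tst, vl, star4]
  · cases b
    · simp [evl, tst, vl, hi]
    · simp only [evl, if_true, vl_star]
      simp [tst, vl, star4, hi]

theorem all_ne (u : Wd) (c : Lt) : (u.all (fun a => !(decide (a = c)))) = false ↔ c ∈ u := by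
  rw [← Bool.not_eq_true, List.all_eq_true]
  push Not
  constructor
  · rintro ⟨a, ha, h⟩
    have : a = c := by simpa using h
    exact this ▸ ha
  · intro h
    exact ⟨c, h, by simp⟩

theorem hP3 : Helper75.CR.StP3 := by
  intro θ
  constructor
  · intro h u v huv c
    obtain ⟨h1, h2⟩ := h u v huv
    rcases u with _ | ⟨a, u'⟩
    · rw [h1.1 rfl]
    rcases v with _ | ⟨b, v'⟩
    · exact absurd (h1.2 rfl) (by simp)
    have h3 := h2 SL4 rfl (tst c.1) a b u' v' rfl rfl
    have h4 := congrArg vl h3
    rw [vl_word, vl_word] at h4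
    simp only [vl_tst] at h4
    obtain ⟨h5, h6⟩ := Prod.mk.inj h4
    rcases c with ⟨j, s⟩
    cases s
    · rw [← all_ne, ← all_ne]
      exact ⟨fun H => h5 ▸ H, fun H => h5 ▸ H⟩
    · rw [← all_ne, ← all_ne]
      exact ⟨fun H => h6 ▸ H, fun H => h6 ▸ H⟩
  · intro h u v huv
    have hs := h u v huv
    refine ⟨⟨fun hu => θ.ne' huv hu, fun hv => θ.ne' (θ.symm' huv) hv⟩, ?_⟩
    intro A hA e a b u' v' hu hv
    have hA' : A = SL4 := hA
    subst hA'
    apply vl_inj
    rw [vl_word, vl_word, ← hu, ← hv, all_congr_SC hs, all_congr_SC hs]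

end Pool.Agent.Helper86.CR
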